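import Pool.Agent.Lib.helper29.Darga1

set_option autoImplicit false
open Polynomial Real

namespace Pool.Agent.Results.MP_9de7c4_an.Unbounded

/-- For every `K` there is a trim self-inversive polynomial `p` of some darga `n` such that the set
of `α > 0` for which `α (x ^ n + 1) + p` is circle rooted has at least `K` connected components. -/
theorem result (K : ℕ) : ∃ (n : ℕ) (p : ℂ[X]), p ≠ 0 ∧ p.natTrailingDegree + p.natDegree = n ∧
    (∀ j ≤ n, p.coeff j = starRingEnd ℂ (p.coeff (n - j))) ∧ p.coeff 0 = 0 ∧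
    (K : ℕ∞) ≤ ENat.card (ConnectedComponents
      {α : ℝ | 0 < α ∧ ∀ z : ℂ, (C (α : ℂ) * (X ^ n + 1) + p).IsRoot z → ‖z‖ = 1}) := by
  set m := 20 * (K + 2) ^ 2 with hm
  have hm1 : 1 ≤ m := by rw [hm]; exact Nat.succ_le_of_lt (by positivity)
  have hom : Lib.H29.Darga.om (m + 1) ≠ 0 := Complex.exp_ne_zero _
  have hc : ∀ j, 0 < j → j < m + 1 → (Lib.H29.Darga.pp (m + 1)).coeff j ≠ 0 := by
    intro j h0 h1
    rw [Lib.H29.Darga.pp_coeff, if_pos ⟨h0, h1⟩]
    exact mul_ne_zero Complex.I_ne_zero (pow_ne_zero _ hom)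
  have hc0 : (Lib.H29.Darga.pp (m + 1)).coeff 0 = 0 := by
    rw [Lib.H29.Darga.pp_coeff, if_neg (by omega)]
  have hne : Lib.H29.Darga.pp (m + 1) ≠ 0 := fun e => hc 1 one_pos (by omega) (by rw [e]; simp)
  refine ⟨m + 1, Lib.H29.Darga.pp (m + 1), hne, ?_, ?_, hc0, ?_⟩
  · have h1 : (Lib.H29.Darga.pp (m + 1)).natDegree = m := by
      apply le_antisymm _ (le_natDegree_of_ne_zero (hc m hm1 (by omega)))
      rw [natDegree_le_iff_coeff_eq_zero]
      intro j hj
      rw [Lib.H29.Darga.pp_coeff, if_neg (by omega)]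
    have h2 : (Lib.H29.Darga.pp (m + 1)).natTrailingDegree = 1 := by
      apply le_antisymm (natTrailingDegree_le_of_ne_zero (hc 1 one_pos (by omega)))
      apply le_natTrailingDegree hne
      intro j hj
      rw [show j = 0 by omega, hc0]
    omega
  · intro j hj
    rw [Lib.H29.Darga.pp_coeff, Lib.H29.Darga.pp_coeff]
    by_cases h : 0 < j ∧ j < m + 1
    · rw [if_pos h, if_pos (by omega)]
      have e1 := Lib.H29.Darga.om_pow (n := m + 1) (by omega)
      have e2 : Lib.H29.Darga.om (m + 1) * starRingEnd ℂ (Lib.H29.Darga.om (m + 1)) = 1 := by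
        rw [Complex.mul_conj, Complex.normSq_eq_norm_sq, Lib.H29.Darga.om_norm]; simp
      obtain ⟨d, hd⟩ := Nat.exists_eq_add_of_le hj
      rw [show m + 1 - j = d by omega]
      generalize Lib.H29.Darga.om (m + 1) = w at e1 e2
      rw [hd] at e1
      have e3 : (w * starRingEnd ℂ w) ^ d = 1 := by rw [e2, one_pow]
      rw [map_mul, map_pow, Complex.conj_I]
      linear_combination (Complex.I * starRingEnd ℂ w ^ d) * e1 - (Complex.I * w ^ j) * e3
    · rw [if_neg h, if_neg (by omega), map_zero]
  · have hb : ∀ i : Fin K, 20 * ((i : ℕ) + 1 + 1) ^ 2 < m + 1 := by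
      intro i
      have := i.2
      rw [hm]; nlinarith
    set S : Set ℝ := {α : ℝ | 0 < α ∧ ∀ z : ℂ,
      (C (α : ℂ) * (X ^ (m + 1) + 1) + Lib.H29.Darga.pp (m + 1)).IsRoot z → ‖z‖ = 1} with hS
    let a : Fin K → S := fun i =>
      ⟨Lib.H29.Darga.ct ((((i : ℕ) + 1 : ℕ) + 1 / 2) * π / (m + 1)) / 2,
        Lib.H29.Darga.window m (i + 1) (by omega) (hb i)⟩
    have hp := Real.pi_pos
    have hN : (0 : ℝ) < m + 1 := by positivity
    have key : ∀ i j : Fin K, i < j →
        (ConnectedComponents.mk (a i) : ConnectedComponents S) ≠ ConnectedComponents.mk (a j) := by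
      intro i j hij e
      rw [ConnectedComponents.coe_eq_coe] at e
      have h1 : IsPreconnected (Subtype.val '' connectedComponent (a i)) :=
        isPreconnected_connectedComponent.image _ continuous_subtype_val.continuousOn
      have h2 : (a i : ℝ) ∈ Subtype.val '' connectedComponent (a i) :=
        ⟨a i, mem_connectedComponent, rfl⟩
      have h3 : (a j : ℝ) ∈ Subtype.val '' connectedComponent (a i) :=
        ⟨a j, e ▸ mem_connectedComponent, rfl⟩
      have hij' : ((i : ℕ) : ℝ) + 1 ≤ (j : ℕ) := by exact_mod_cast hij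
      have hbj : 20 * (((j : ℕ) : ℝ) + 1 + 1) ^ 2 < m + 1 := by exact_mod_cast hb j
      have hj0 : (0 : ℝ) ≤ (j : ℕ) := by positivity
      have hi0 : (0 : ℝ) ≤ (i : ℕ) := by positivity
      have hlt : ∀ x y : ℝ, 0 < x → x < y → y < m + 1 →
          Lib.H29.Darga.ct (y * π / (m + 1)) < Lib.H29.Darga.ct (x * π / (m + 1)) := by
        intro x y h0 hxy hy
        apply Lib.H29.Darga.ct_lt (by positivity)
        · exact div_lt_div_of_pos_right (mul_lt_mul_of_pos_right hxy hp) hN
        · rw [div_lt_iff₀ hN]; nlinarith [mul_pos hp (sub_pos.mpr hy)]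
      have h4 : Lib.H29.Darga.ct ((((j : ℕ) + 1 : ℕ) : ℝ) * π / (m + 1)) / 2
          ∈ Subtype.val '' connectedComponent (a i) := by
        apply h1.ordConnected.out h3 h2
        simp only [a]
        push_cast
        constructor
        · linarith [hlt ((j : ℕ) + 1) ((j : ℕ) + 1 + 1 / 2) (by positivity) (by linarith)
            (by nlinarith)]
        · linarith [hlt ((i : ℕ) + 1 + 1 / 2) ((j : ℕ) + 1) (by positivity) (by linarith)
            (by nlinarith)]
      obtain ⟨b, -, hb2⟩ := h4
      have h5 := b.2.2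
      rw [hb2] at h5
      exact Lib.H29.Darga.gap m (j + 1) (by omega) (hb j) h5
    have inj : Function.Injective fun i : Fin K =>
        (ConnectedComponents.mk (a i) : ConnectedComponents S) := by
      intro i j e
      rcases lt_trichotomy i j with h | h | h
      · exact absurd e (key i j h)
      · exact h
      · exact absurd e.symm (key j i h)
    have := ENat.card_le_card_of_injective inj
    simpa using this

end Pool.Agent.Results.MP_9de7c4_an.Unbounded
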